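import Pool.Agent.H796R3.AO.Equiv
import Pool.Agent.H580R3.AOTaskA
import Pool.Agent.H190R3.AOTaskB

set_option autoImplicit false

/-!
# Acyclic `T`-odd orientations of line graphs: a good characterization

For every loopless multigraph `Γ` (edge set `E`) and every loopless multigraph `G` on the vertex
set `E` in which `e ≠ f` are joined by an odd number of edges exactly when they share exactly one
endpoint in `Γ` (for instance the line graph of a simple graph, or the line graph of a multigraph
in which two edges are joined as often as they have common endpoints), and every `T ⊆ E`, the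
following are equivalent:

* `G` has an acyclic `T`-odd orientation;
* every component of the line graph contains an element outside `T`, and the half-edges of `Γ`
  can be labelled in/out such that the two halves of `e` differ iff `e ∈ T` and at every vertex
  `#in - #out ∈ {0, 1}`;
* every component of the line graph contains an element outside `T`, and an explicit auxiliary
  graph has no Tutte violator.
-/

namespace Pool.Agent.Results.MP_7f2998_co.LineGraphs

open Pool.Agent.H796R3.AO

theorem result :
    ∀ (V E : Type) [Fintype V] [Fintype E] [DecidableEq V] (Γ : Root V E) (G : MGraph E),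
      (∀ e f, e ≠ f → (Odd (G.m e f) ↔ (Γ.ends e ∩ Γ.ends f).card = 1)) → ∀ T : Set E,
      (HasAcyclicTOdd G T ↔
        (∀ e, ∃ f, f ∉ T ∧ Γ.line.Reachable e f) ∧ ∃ σ : E → V → Bool, Balanced Γ T σ) ∧
      (HasAcyclicTOdd G T ↔
        (∀ e, ∃ f, f ∉ T ∧ Γ.line.Reachable e f) ∧
          ∀ U : Set (Γ.AuxV T), ¬ (Γ.aux T).IsTutteViolator U) := by
  intro V E _ _ _ Γ G hG T
  have hG' : ∀ e f, e ≠ f → (Odd (G.m e f) ↔ Odd (Γ.ends e ∩ Γ.ends f).card) := by
    intro e f hef
    rw [hG e f hef]
    have hle : (Γ.ends e ∩ Γ.ends f).card ≤ 2 := by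
      calc (Γ.ends e ∩ Γ.ends f).card ≤ (Γ.ends e).card :=
            Finset.card_le_card Finset.inter_subset_left
        _ = 2 := Γ.card_ends e
    constructor
    · intro h; rw [h]; exact odd_one
    · rintro ⟨k, hk⟩; omega
  have h1 := (Pool.Agent.H580R3.AOTaskA.taskA E G T).trans (order_iff Γ G hG' T)
  refine ⟨h1, ?_⟩
  haveI : Finite (Γ.AuxV T) := inferInstance
  rw [h1, Pool.Agent.H190R3.AOTaskB.taskB V E Γ T, SimpleGraph.tutte]

end Pool.Agent.Results.MP_7f2998_co.LineGraphs
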