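import Pool.Agent.H796R3.AO.Univ

set_option autoImplicit false

/-!
# Acyclic `T`-odd orientations: normal form, universality, reduction to 3-connected graphs

1. `G` has an acyclic `T`-odd orientation iff the graph obtained by joining a new vertex by single
   edges to all vertices outside `T` can be reduced to a single vertex by successively deleting
   vertices of odd degree.
2. A graph is reducible in this sense iff it has an acyclic orientation in which all vertices but
   `r` have odd in-degree, for one, equivalently for each, vertex `r`.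
3. `G` has an acyclic `T`-odd orientation for all `T ≠ V` with `|T| + |E|` even iff `G` is
   reducible, or all its degrees are even and it becomes reducible after deleting a vertex.
4. A reducible graph has `|E| + |V|` odd.
5. Reducibility decomposes along cuts with zero, one and two vertices.
-/

namespace Pool.Agent.Results.MP_7f2998_co.Reductions

open Pool.Agent.H796R3.AO

theorem result :
    (∀ (W : Type) [Fintype W] [DecidableEq W] (G : MGraph W) (T : Set W),
      HasAcyclicTOdd G T ↔ Reducible (cone G T).m Finset.univ) ∧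
    (∀ (W : Type) [Fintype W] [DecidableEq W] (G : MGraph W) (r : W),
      Reducible G.m Finset.univ ↔ HasAcyclicTOdd G {v | v ≠ r}) ∧
    (∀ (W : Type) [Fintype W] [DecidableEq W] [Nonempty W] (G : MGraph W),
      (∀ T : Set W, T ≠ Set.univ → (∃ k, ∑ u, ∑ v, G.m u v = 2 * k ∧ Even (k + T.ncard)) →
        HasAcyclicTOdd G T) ↔
      Reducible G.m Finset.univ ∨
        ((∀ v, Even (∑ u, G.m u v)) ∧ ∃ v, Reducible G.m (Finset.univ.erase v))) ∧
    (∀ (W : Type) [DecidableEq W] (G : MGraph W) (S : Finset W), Reducible G.m S →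
      ∃ k, ∑ u ∈ S, ∑ v ∈ S, G.m u v = 2 * k ∧ Odd (k + S.card)) ∧
    (∀ (W : Type) [DecidableEq W] (G : MGraph W) (S₁ S₂ : Finset W),
      (∀ u ∈ S₁, u ∉ S₂ → ∀ v ∈ S₂, v ∉ S₁ → G.m u v = 0) →
      (S₁.Nonempty → S₂.Nonempty → S₁ ∩ S₂ = ∅ → ¬ Reducible G.m (S₁ ∪ S₂)) ∧
      (∀ a, S₁ ∩ S₂ = {a} →
        (Reducible G.m (S₁ ∪ S₂) ↔ Reducible G.m S₁ ∧ Reducible G.m S₂)) ∧
      (∀ a b, a ≠ b → S₁ ∩ S₂ = {a, b} →
        (Reducible G.m (S₁ ∪ S₂) ↔ ∃ c₁ c₂ : ℕ, c₁ ≤ 1 ∧ c₂ ≤ 1 ∧ Odd (c₁ + c₂ + G.m a b) ∧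
          Reducible (setAB G.m a b c₁) S₁ ∧ Reducible (setAB G.m a b c₂) S₂))) := by
  refine ⟨fun W _ _ G T => cone_iff G T, fun W _ _ G r => reducible_iff_root G r,
    fun W _ _ _ G => universal_iff G,
    fun W _ G S h => reducible_parity G.loopless G.symm h, fun W _ G S₁ S₂ hsep => ⟨?_, ?_, ?_⟩⟩
  · intro h1 h2 hI
    have hd : Disjoint S₁ S₂ := Finset.disjoint_iff_inter_eq_empty.mpr hI
    refine zero_cut G.loopless G.symm h1 h2 hd fun u hu v hv => hsep u hu ?_ v hv ?_
    · exact Finset.disjoint_left.mp hd hu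
    · exact Finset.disjoint_right.mp hd hv
  · intro a hI
    exact one_cut G.loopless G.symm hI hsep
  · intro a b hab hI
    exact two_cut G.loopless G.symm hab hI hsep

end Pool.Agent.Results.MP_7f2998_co.Reductions
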